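import Mathlib

/-!
# Selective high divergence is not dense hereditary

The Cantor cube `X = {0,1}^𝔠` is selectively highly divergent, and its `Σ`-product
`D = {x : x has countable support}` is a dense subspace which is sequentially compact, so `D` is not
selectively highly divergent. Here `𝔠` is represented by the index set `I = (ℕ → ℕ) × Set ℕ`: the
sequence chosen from given open sets `U_n`, which restrict only the coordinates of a countable set
`C`, alternates along `φ` at a coordinate `(φ, B)` outside of `C`.
-/

set_option autoImplicit false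

open Set Filter Topology

namespace Pool.Agent.Results.MP_f0fa00_gt.CantorCube

/-- `X` is selectively highly divergent: for every sequence of nonempty open sets one can choose
points of these sets such that no subsequence of the sequence of the points converges. -/
def SHD (X : Type) [TopologicalSpace X] : Prop :=
  ∀ U : ℕ → Set X, (∀ n, IsOpen (U n)) → (∀ n, (U n).Nonempty) →
    ∃ x : ℕ → X, (∀ n, x n ∈ U n) ∧
      ∀ φ : ℕ → ℕ, StrictMono φ → ¬ ∃ a : X, Tendsto (x ∘ φ) atTop (𝓝 a)

/-- The index set. -/
abbrev I : Type := (ℕ → ℕ) × Set ℕ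

/-- The `Σ`-product in the Cantor cube. -/
def SigmaProd : Set (I → Bool) := {x | {i | x i = true}.Countable}

theorem exists_outside {C : Set I} (hC : C.Countable) (φ : ℕ → ℕ) :
    ∃ B : Set ℕ, (φ, B) ∉ C := by
  by_contra hcon
  push Not at hcon
  have h1 : (Prod.snd '' C) = (Set.univ : Set (Set ℕ)) := by
    ext B
    simp only [mem_image, Prod.exists, exists_eq_right, mem_univ, iff_true]
    exact ⟨φ, hcon B⟩
  have h2 : (Set.univ : Set (Set ℕ)).Countable := h1 ▸ hC.image _
  have h3 : Countable (Set ℕ) := countable_univ_iff.1 h2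
  exact (Cardinal.cantor (Cardinal.mk ℕ)).not_ge (by
    rw [← Cardinal.mk_set]
    exact Cardinal.mk_le_aleph0.trans (by simp))

theorem shd_cube : SHD (I → Bool) := by
  classical
  intro U hU hne
  choose u hu using hne
  choose J hJ1 hJ2 using fun n => (isOpen_pi_iff.1 (hU n)) (u n) (hu n)
  let C : Set I := ⋃ n, (J n : Set I)
  have hC : C.Countable := countable_iUnion fun n => (J n).countable_toSet
  let x : ℕ → I → Bool := fun n i => if i ∈ C then u n i else decide (∃ k, i.1 (2 * k) = n)
  refine ⟨x, fun n => ?_, ?_⟩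
  · refine (hJ2 n).2 ?_
    intro i hi
    have : x n i = u n i := if_pos (mem_iUnion.2 ⟨n, hi⟩)
    rw [this]
    exact ((hJ2 n).1 i hi).2
  · rintro φ hφ ⟨a, ha⟩
    obtain ⟨B, hB⟩ := exists_outside hC φ
    have h1 : Tendsto (fun k => (x ∘ φ) k (φ, B)) atTop (𝓝 (a (φ, B))) :=
      (tendsto_pi_nhds.1 ha) (φ, B)
    have h2 : ∀ᶠ k in atTop, (x ∘ φ) k (φ, B) = a (φ, B) := by
      have := h1 (isOpen_discrete {a (φ, B)} |>.mem_nhds rfl)
      exact this
    obtain ⟨N, hN⟩ := eventually_atTop.1 h2
    have h3 : x (φ (2 * N)) (φ, B) = true := by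
      have : x (φ (2 * N)) (φ, B) = decide (∃ k, φ (2 * k) = φ (2 * N)) := if_neg hB
      rw [this]
      simp only [decide_eq_true_eq]
      exact ⟨N, rfl⟩
    have h4 : x (φ (2 * N + 1)) (φ, B) = false := by
      have : x (φ (2 * N + 1)) (φ, B) = decide (∃ k, φ (2 * k) = φ (2 * N + 1)) := if_neg hB
      rw [this]
      simp only [decide_eq_false_iff_not, not_exists]
      intro k hk
      have := hφ.injective hk
      omega
    have h5 := hN (2 * N) (by omega)
    have h6 := hN (2 * N + 1) (by omega)
    simp only [Function.comp_apply] at h5 h6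
    rw [h3] at h5
    rw [h4, ← h5] at h6
    exact Bool.false_ne_true h6

theorem dense_sigma : Dense SigmaProd := by
  classical
  rw [dense_iff_inter_open]
  intro U hU ⟨u, hu⟩
  obtain ⟨J, v, hv, hJ⟩ := isOpen_pi_iff.1 hU u hu
  refine ⟨fun i => if i ∈ J then u i else false, hJ ?_, ?_⟩
  · intro i hi
    have : (if i ∈ J then u i else false) = u i := if_pos hi
    simp only
    rw [this]
    exact (hv i hi).2
  · refine (J.countable_toSet).mono ?_
    intro i hi
    by_contra hcon
    have : (if i ∈ J then u i else false) = false := if_neg hcon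
    simp only [mem_setOf_eq] at hi
    rw [this] at hi
    exact Bool.false_ne_true hi

/-- Every sequence of points of the `Σ`-product has a convergent subsequence. -/
theorem sigma_subseq (x : ℕ → SigmaProd) :
    ∃ (a : SigmaProd) (φ : ℕ → ℕ), StrictMono φ ∧ Tendsto (x ∘ φ) atTop (𝓝 a) := by
  classical
  let S : Set I := ⋃ n, {i | (x n).1 i = true}
  have hS : S.Countable := countable_iUnion fun n => (x n).2
  haveI : Countable S := hS.to_subtype
  obtain ⟨y, φ, hφ, hy⟩ := CompactSpace.tendsto_subseq (fun n => fun s : S => (x n).1 s)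
  let z : I → Bool := fun i => if h : i ∈ S then y ⟨i, h⟩ else false
  have hz : z ∈ SigmaProd := by
    refine hS.mono ?_
    intro i hi
    by_contra hcon
    have : z i = false := dif_neg hcon
    simp only [mem_setOf_eq] at hi
    rw [this] at hi
    exact Bool.false_ne_true hi
  refine ⟨⟨z, hz⟩, φ, hφ, ?_⟩
  rw [tendsto_subtype_rng, tendsto_pi_nhds]
  intro i
  by_cases hi : i ∈ S
  · have h1 := (tendsto_pi_nhds.1 hy) ⟨i, hi⟩
    have h2 : z i = y ⟨i, hi⟩ := dif_pos hi
    simp only [h2]
    exact h1
  · have h2 : z i = false := dif_neg hi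
    simp only [h2]
    have h3 : ∀ n, (x n).1 i = false := by
      intro n
      by_contra hcon
      exact hi (mem_iUnion.2 ⟨n, by simpa using hcon⟩)
    have h4 : (fun k => ((x ∘ φ) k).1 i) = fun _ => false := by
      funext k
      exact h3 _
    rw [h4]
    exact tendsto_const_nhds

/-- There is a compact Hausdorff space `X`, a Cantor cube, which is selectively highly divergent,
and a dense subspace `D` of it which is not. -/
theorem result : ∃ (X : Type) (_ : TopologicalSpace X) (D : Set X),
    CompactSpace X ∧ T2Space X ∧ SHD X ∧ Dense D ∧ ¬ SHD D := by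
  refine ⟨I → Bool, inferInstance, SigmaProd, inferInstance, inferInstance, shd_cube,
    dense_sigma, ?_⟩
  intro h
  obtain ⟨x, _, hx⟩ := h (fun _ => univ) (fun _ => isOpen_univ)
    (fun _ => ⟨⟨fun _ => false, by simp [SigmaProd]⟩, mem_univ _⟩)
  obtain ⟨a, φ, hφ, ha⟩ := sigma_subseq x
  exact hx φ hφ ⟨a, ha⟩

end Pool.Agent.Results.MP_f0fa00_gt.CantorCube
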